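import Mathlib

/-!
# [H82 KST] Blow-up (Kovari-Sos-Turan / Erdos) with the density bound

`blow`: a set `S` of functions `W → X` of density at least `δ` has at least `δ ^ (s ^ |W|) |X| ^ (s |W|)` blow-ups
`y : W × Fin s → X` all of whose transversals belong to `S`.
-/

set_option autoImplicit false

namespace Pool.Agent.H82.KST

open Finset

/-- power mean with real density -/
theorem pmean {ι : Type*} (s : Finset ι) (f : ι → ℝ) (hf : ∀ i ∈ s, 0 ≤ f i) (n : ℕ) (hn : 1 ≤ n) (δ : ℝ) (hδ : 0 ≤ δ)
    (h : δ * s.card ≤ ∑ i ∈ s, f i) : δ ^ n * s.card ≤ ∑ i ∈ s, f i ^ n := by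
  obtain ⟨m, rfl⟩ : ∃ m, n = m + 1 := ⟨n - 1, by omega⟩
  rcases s.eq_empty_or_nonempty with rfl | hs
  · rw [card_empty, Nat.cast_zero, mul_zero, sum_empty]
  have hc : (0 : ℝ) < s.card := by exact_mod_cast hs.card_pos
  have h1 := pow_sum_div_card_le_sum_pow hf m
  refine le_trans ?_ h1
  rw [le_div_iff₀ (pow_pos hc m)]
  calc δ ^ (m + 1) * s.card * (s.card : ℝ) ^ m = (δ * s.card) ^ (m + 1) := by ring
    _ ≤ (∑ i ∈ s, f i) ^ (m + 1) := pow_le_pow_left₀ (by positivity) h _

/-- the number of blow-ups -/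
noncomputable def bl (W : Type) [Fintype W] (s : ℕ) (X : Type) [Fintype X] (S : Finset (W → X)) : ℕ :=
  Nat.card {y : W × Fin s → X // ∀ t : W → Fin s, (fun w => y (w, t w)) ∈ S}

theorem bl_equiv {W W' : Type} [Fintype W] [Fintype W'] (e : W ≃ W') (s : ℕ) (X : Type) [Fintype X]
    (S : Finset (W' → X)) (S' : Finset (W → X)) (h : ∀ x : W → X, x ∈ S' → (fun w => x (e.symm w)) ∈ S) :
    bl W s X S' ≤ bl W' s X S := by
  classical
  unfold bl
  refine Nat.card_le_card_of_injective (fun y => ⟨fun p => y.1 (e.symm p.1, p.2), ?_⟩) ?_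
  · intro t
    have h1 := h _ (y.2 (fun w => t (e w)))
    have e1 : (fun w => y.1 (e.symm w, t w)) =
        fun w => (fun w => y.1 (w, t (e w))) (e.symm w) := by
      funext w
      show y.1 (e.symm w, t w) = y.1 (e.symm w, t (e (e.symm w)))
      rw [e.apply_symm_apply]
    show (fun w => y.1 (e.symm w, t w)) ∈ S
    rw [e1]
    exact h1
  · intro y z hyz
    have h1 : (fun p : W' × Fin s => y.1 (e.symm p.1, p.2)) = fun p => z.1 (e.symm p.1, p.2) :=
      congrArg Subtype.val hyz
    apply Subtype.ext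
    funext p
    have h2 := congrFun h1 (e p.1, p.2)
    have h3 : y.1 (e.symm (e p.1), p.2) = z.1 (e.symm (e p.1), p.2) := h2
    rw [e.symm_apply_apply] at h3
    exact h3

/-- the statement -/
def Bl (W : Type) [Fintype W] : Prop :=
  ∀ (s : ℕ), 1 ≤ s → ∀ (X : Type) [Fintype X] (S : Finset (W → X)) (δ : ℝ), 0 ≤ δ →
    δ * (Fintype.card X : ℝ) ^ Fintype.card W ≤ S.card →
    δ ^ (s ^ Fintype.card W) * (Fintype.card X : ℝ) ^ (s * Fintype.card W) ≤ bl W s X S

theorem Bl_equiv (W W' : Type) [Fintype W] [Fintype W'] (e : W ≃ W') (h : Bl W) : Bl W' := by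
  classical
  intro s hs X _ S δ hδ hS
  have hc : Fintype.card W = Fintype.card W' := Fintype.card_congr e
  obtain ⟨S', hS'⟩ : ∃ S' : Finset (W → X), S' = S.image (fun x w => x (e w)) := ⟨_, rfl⟩
  have hcard : S'.card = S.card := by
    rw [hS']
    apply card_image_of_injective
    intro x y hxy
    funext w
    have h1 := congrFun hxy (e.symm w)
    have h2 : x (e (e.symm w)) = y (e (e.symm w)) := h1
    rw [e.apply_symm_apply] at h2
    exact h2
  have h1 := h s hs X S' δ hδ (by rw [hc, hcard]; exact hS)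
  rw [hc] at h1
  refine h1.trans ?_
  have h2 := bl_equiv e s X S S' (by
    intro x hx
    rw [hS'] at hx
    obtain ⟨z, hz, rfl⟩ := mem_image.1 hx
    have e1 : (fun w => (fun w => z (e w)) (e.symm w)) = z := by
      funext w
      show z (e (e.symm w)) = z w
      rw [e.apply_symm_apply]
    rw [e1]
    exact hz)
  exact_mod_cast h2

theorem Bl_empty : Bl PEmpty := by
  classical
  intro s hs X _ S δ hδ hS
  rw [Fintype.card_eq_zero (α := PEmpty), pow_zero, mul_one] at hS
  rw [Fintype.card_eq_zero (α := PEmpty), pow_zero, pow_one, mul_zero, pow_zero, mul_one]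
  refine hS.trans ?_
  have h1 : S.card ≤ bl PEmpty s X S := by
    unfold bl
    rcases S.eq_empty_or_nonempty with rfl | ⟨x, hx⟩
    · rw [card_empty]
      exact Nat.zero_le _
    · have h2 : S.card ≤ 1 := by
        rw [card_le_one]
        intro a _ b _
        funext w
        exact w.elim
      refine h2.trans ?_
      have hne : Nonempty {y : PEmpty × Fin s → X // ∀ t : PEmpty → Fin s, (fun w => y (w, t w)) ∈ S} := by
        refine ⟨fun p => p.1.elim, fun t => ?_⟩
        have e1 : (fun w : PEmpty => (fun p : PEmpty × Fin s => (p.1.elim : X)) (w, t w)) = x := by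
          funext w
          exact w.elim
        rw [e1]
        exact hx
      exact Nat.card_pos
  exact_mod_cast h1

theorem Bl_option (W : Type) [Fintype W] (ih : Bl W) : Bl (Option W) := by
  classical
  intro s hs X _ S δ hδ hS
  obtain ⟨n, hn⟩ : ∃ n, n = Fintype.card W := ⟨_, rfl⟩
  have hcO : Fintype.card (Option W) = n + 1 := by rw [Fintype.card_option, hn]
  rw [hcO] at hS ⊢
  obtain ⟨c, hc⟩ : ∃ c : ℝ, c = (Fintype.card X : ℝ) := ⟨_, rfl⟩
  rw [← hc] at hS ⊢
  have hc0 : 0 ≤ c := by rw [hc]; exact Nat.cast_nonneg _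
  -- sections
  obtain ⟨T, hT⟩ : ∃ T : (Fin s → X) → Finset (W → X),
    T = fun z => univ.filter (fun x => ∀ j, (fun o : Option W => o.elim (z j) x) ∈ S) := ⟨_, rfl⟩
  obtain ⟨D, hD⟩ : ∃ D : (W → X) → Finset X,
    D = fun x => univ.filter (fun a => (fun o : Option W => o.elim a x) ∈ S) := ⟨_, rfl⟩
  have hScard : S.card = ∑ x : W → X, (D x).card := by
    have h1 : S.card = (univ.sigma D).card := by
      refine card_bij (fun f _ => (⟨fun w => f (some w), f none⟩ : Σ _ : W → X, X)) ?_ ?_ ?_
      · intro f hf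
        rw [mem_sigma]
        refine ⟨mem_univ _, ?_⟩
        rw [hD, mem_filter]
        refine ⟨mem_univ _, ?_⟩
        have e1 : (fun o : Option W => o.elim (f none) (fun w => f (some w))) = f := by
          funext o
          cases o <;> rfl
        show (fun o : Option W => o.elim (f none) (fun w => f (some w))) ∈ S
        rw [e1]
        exact hf
      · intro f _ g _ hfg
        have h1 := (Sigma.mk.inj_iff.1 hfg).1
        have h2 := eq_of_heq (Sigma.mk.inj_iff.1 hfg).2
        funext o
        cases o with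
        | none => exact h2
        | some w => exact congrFun h1 w
      · rintro ⟨x, a⟩ h
        rw [mem_sigma] at h
        have h2 := h.2
        rw [hD, mem_filter] at h2
        exact ⟨_, h2.2, rfl⟩
    rw [h1, card_sigma]
  have hTsum : ∑ z : Fin s → X, (T z).card = ∑ x : W → X, (D x).card ^ s := by
    have h1 : ∑ z : Fin s → X, (T z).card = (univ.sigma T).card := (card_sigma _ _).symm
    have h2 : ∑ x : W → X, (D x).card ^ s =
        ((univ : Finset (W → X)).sigma (fun x => Fintype.piFinset (fun _ : Fin s => D x))).card := by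
      rw [card_sigma]
      refine sum_congr rfl fun x _ => ?_
      rw [Fintype.card_piFinset_const]
    rw [h1, h2]
    refine card_bij (fun p _ => (⟨p.2, p.1⟩ : Σ _ : W → X, Fin s → X)) ?_ ?_ ?_
    · rintro ⟨z, x⟩ h
      rw [mem_sigma] at h ⊢
      have h3 := h.2
      rw [hT, mem_filter] at h3
      refine ⟨mem_univ _, ?_⟩
      rw [Fintype.mem_piFinset]
      intro j
      rw [hD, mem_filter]
      exact ⟨mem_univ _, h3.2 j⟩
    · rintro ⟨z, x⟩ _ ⟨z', x'⟩ _ h
      have h1 := (Sigma.mk.inj_iff.1 h).1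
      have h2 := eq_of_heq (Sigma.mk.inj_iff.1 h).2
      have h1' : x = x' := h1
      have h2' : z = z' := h2
      rw [h1', h2']
    · rintro ⟨x, z⟩ h
      rw [mem_sigma] at h
      have h3 := h.2
      rw [Fintype.mem_piFinset] at h3
      refine ⟨⟨z, x⟩, ?_, rfl⟩
      rw [mem_sigma, hT, mem_filter]
      refine ⟨mem_univ _, mem_univ _, ?_⟩
      intro j
      have h4 := h3 j
      rw [hD, mem_filter] at h4
      exact h4.2
  -- first power mean
  have hcardW : ((univ : Finset (W → X)).card : ℝ) = c ^ n := by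
    rw [card_univ, Fintype.card_fun, hc, hn]
    push_cast
    rfl
  have hcards : ((univ : Finset (Fin s → X)).card : ℝ) = c ^ s := by
    rw [card_univ, Fintype.card_fun, hc, Fintype.card_fin]
    push_cast
    rfl
  have h1 : (δ * c) ^ s * c ^ n ≤ ∑ z : Fin s → X, ((T z).card : ℝ) := by
    have h2 := pmean (univ : Finset (W → X)) (fun x => ((D x).card : ℝ)) (fun _ _ => Nat.cast_nonneg _) s hs
      (δ * c) (by positivity) (by
        rw [hcardW]
        have h3 : (S.card : ℝ) = ∑ x : W → X, ((D x).card : ℝ) := by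
          rw [hScard]
          push_cast
          rfl
        rw [← h3]
        refine le_trans (le_of_eq ?_) hS
        ring)
    rw [hcardW] at h2
    refine h2.trans (le_of_eq ?_)
    have h3 : ((∑ z : Fin s → X, (T z).card : ℕ) : ℝ) = ((∑ x : W → X, (D x).card ^ s : ℕ) : ℝ) := by
      rw [hTsum]
    push_cast at h3
    exact h3.symm
  have hTm : ∀ z x, x ∈ T z → ∀ j, (fun o : Option W => o.elim (z j) x) ∈ S := by
    intro z x hx
    rw [hT, mem_filter] at hx
    exact hx.2
  -- blow-ups of the sections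
  have h2 : ∑ z : Fin s → X, bl W s X (T z) ≤ bl (Option W) s X S := by
    unfold bl
    rw [← Nat.card_sigma]
    refine Nat.card_le_card_of_injective (fun p => ⟨fun q => q.1.elim (p.1 q.2) (fun w => p.2.1 (w, q.2)), ?_⟩) ?_
    · intro t
      have h3 := p.2.2 (fun w => t (some w))
      have h4 := hTm _ _ h3 (t none)
      have e1 : (fun o : Option W => o.elim (p.1 (t o)) (fun w => p.2.1 (w, t o))) =
          fun o : Option W => o.elim (p.1 (t none)) (fun w => p.2.1 (w, t (some w))) := by
        funext o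
        cases o <;> rfl
      show (fun o : Option W => o.elim (p.1 (t o)) (fun w => p.2.1 (w, t o))) ∈ S
      rw [e1]
      exact h4
    · rintro ⟨z, y⟩ ⟨z', y'⟩ h
      have h3 := congrArg Subtype.val h
      have hz : z = z' := by
        funext j
        exact congrFun h3 (none, j)
      subst hz
      have hy : y = y' := by
        apply Subtype.ext
        funext q
        exact congrFun h3 (some q.1, q.2)
      rw [hy]
  have h3 : (δ ^ s) ^ (s ^ n) * c ^ s * c ^ (s * n) ≤ ∑ z : Fin s → X, (bl W s X (T z) : ℝ) := by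
    rcases hc0.eq_or_lt with h0 | hpos
    · rw [← h0, zero_pow (by omega : s ≠ 0), mul_zero, zero_mul]
      exact sum_nonneg fun _ _ => Nat.cast_nonneg _
    · have hcn : 0 < c ^ n := pow_pos hpos n
      have h4 := pmean (univ : Finset (Fin s → X)) (fun z => ((T z).card : ℝ) / c ^ n)
        (fun _ _ => by positivity) (s ^ n) (Nat.one_le_pow _ _ hs) (δ ^ s) (by positivity) (by
          rw [hcards, ← sum_div, le_div_iff₀ hcn, ← mul_pow]
          exact h1)
      rw [hcards] at h4
      have h5 : ∀ z : Fin s → X, (((T z).card : ℝ) / c ^ n) ^ (s ^ n) * c ^ (s * n) ≤ bl W s X (T z) := by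
        intro z
        have h6 := ih s hs X (T z) (((T z).card : ℝ) / c ^ n) (by positivity) (by
          rw [← hn, ← hc, div_mul_cancel₀ _ hcn.ne'])
        rw [← hn, ← hc] at h6
        exact h6
      calc (δ ^ s) ^ (s ^ n) * c ^ s * c ^ (s * n)
          ≤ (∑ z : Fin s → X, (((T z).card : ℝ) / c ^ n) ^ (s ^ n)) * c ^ (s * n) :=
            mul_le_mul_of_nonneg_right h4 (by positivity)
        _ = ∑ z : Fin s → X, (((T z).card : ℝ) / c ^ n) ^ (s ^ n) * c ^ (s * n) := by rw [sum_mul]
        _ ≤ _ := sum_le_sum fun z _ => h5 z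
  have h4 : δ ^ (s ^ (n + 1)) * c ^ (s * (n + 1)) = (δ ^ s) ^ (s ^ n) * c ^ s * c ^ (s * n) := by
    rw [← pow_mul, ← pow_succ', mul_assoc, ← pow_add]
    congr 2
    ring
  rw [h4]
  refine h3.trans ?_
  exact_mod_cast h2

theorem Bl_all (W : Type) [Fintype W] : Bl W := by
  refine Fintype.induction_empty_option (P := fun W _ => Bl W) ?_ Bl_empty ?_ W
  · intro α β _ e h
    exact @Bl_equiv α β (Fintype.ofEquiv β e.symm) _ e h
  · intro α _ h
    exact Bl_option α h

open Classical in
theorem blow {W : Type} [Fintype W] (s : ℕ) (hs : 1 ≤ s) (X : Type) [Fintype X] (S : Finset (W → X)) (δ : ℝ)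
    (hδ : 0 ≤ δ) (hS : δ * (Fintype.card X : ℝ) ^ Fintype.card W ≤ S.card) :
    δ ^ (s ^ Fintype.card W) * (Fintype.card X : ℝ) ^ (s * Fintype.card W) ≤
      ((univ.filter (fun y : W × Fin s → X => ∀ t : W → Fin s, (fun w => y (w, t w)) ∈ S)).card : ℝ) := by
  have h1 := Bl_all W s hs X S δ hδ hS
  unfold bl at h1
  rw [Nat.card_eq_fintype_card, Fintype.card_subtype] at h1
  exact h1

end Pool.Agent.H82.KST
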